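import Pool.Agent.Helper32.CL.St1
import Pool.Agent.Helper35.PI2.St

set_option autoImplicit false

namespace Pool.Agent.Helper91.CL

open Helper32.CL Helper35.PI Helper35.PI2
open scoped ContDiff Manifold Topology ENNReal BigOperators
open MeasureTheory Set Filter

theorem cont_slice {n : ℕ} (T : Set (EE n)) (a : EE n → ℝ → ℝ)
    (hS : ContinuousOn (fun z : EE n × ℝ => a z.1 z.2) (T ×ˢ Iio 0)) (t : ℝ) (ht : t < 0) :
    ContinuousOn (fun y => a y t) T := by
  have h3 : ContinuousOn (fun y : EE n => (y, t)) T := by fun_prop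
  exact hS.comp h3 fun y hy => ⟨hy, ht⟩

theorem ae_symm {n : ℕ} {M : Type} [TopologicalSpace M] [MeasurableSpace M] [BorelSpace M]
    (e : OpenPartialHomeomorph M (EE n)) :
    AEMeasurable e.symm ((volume : Measure (EE n)).restrict e.target) :=
  e.continuousOn_symm.aemeasurable e.open_target.measurableSet

theorem ae_chi {n : ℕ} {M : Type} [TopologicalSpace M]
    (e : OpenPartialHomeomorph M (EE n)) (χ : M → ℝ) (hχ : Continuous χ) :
    AEMeasurable (fun y => ENNReal.ofReal (χ (e.symm y)))
      ((volume : Measure (EE n)).restrict e.target) :=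
  ((hχ.comp_continuousOn e.continuousOn_symm).aemeasurable
    e.open_target.measurableSet).ennreal_ofReal

theorem low_term {n : ℕ} {M : Type} [TopologicalSpace M] [MeasurableSpace M] [BorelSpace M]
    (e : OpenPartialHomeomorph M (EE n)) (χ : M → ℝ) (hχ : Continuous χ) (σ : EE n → ℝ)
    (hσ : ContinuousOn σ e.target) (g : M → ℝ≥0∞) (hg : Measurable g) :
    ∫⁻ q, g q ∂(Measure.map e.symm
      (((volume : Measure (EE n)).restrict e.target).withDensity fun y =>
        ENNReal.ofReal (χ (e.symm y)) * ENNReal.ofReal (σ y))) =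
      ∫⁻ y in e.target, ENNReal.ofReal (χ (e.symm y)) * g (e.symm y) * ENNReal.ofReal (σ y) := by
  have hrho : AEMeasurable (fun y => ENNReal.ofReal (χ (e.symm y)) * ENNReal.ofReal (σ y))
      ((volume : Measure (EE n)).restrict e.target) :=
    (ae_chi e χ hχ).mul (hσ.aemeasurable e.open_target.measurableSet).ennreal_ofReal
  have h1 : AEMeasurable e.symm (((volume : Measure (EE n)).restrict e.target).withDensity fun y =>
        ENNReal.ofReal (χ (e.symm y)) * ENNReal.ofReal (σ y)) :=
    (ae_symm e).mono_ac (withDensity_absolutelyContinuous _ _)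
  have h2 : AEMeasurable (fun y => g (e.symm y))
      (((volume : Measure (EE n)).restrict e.target).withDensity fun y =>
        ENNReal.ofReal (χ (e.symm y)) * ENNReal.ofReal (σ y)) := hg.comp_aemeasurable h1
  rw [lintegral_map' hg.aemeasurable h1, lintegral_withDensity_eq_lintegral_mul₀' hrho h2]
  apply lintegral_congr
  intro y
  simp only [Pi.mul_apply]
  ring

theorem hMU (hEB : StEB) (hLT : StLT) (hLL : StLL) : StMU := by
  intro n N M _ _ _ _ _ _ _ F c χ hS
  have hfin := hS.pu.fin.finite_nonempty_of_compact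
  classical
  have hzero : ∀ i ∉ hfin.toFinset, ∀ q, χ i q = 0 := by
    intro i hi q
    rw [Set.Finite.mem_toFinset] at hi
    by_contra hq
    exact hi ⟨q, subset_tsupport _ hq⟩
  refine ⟨hfin.toFinset, hzero, ?_⟩
  obtain ⟨s, hs⟩ : ∃ s, s = hfin.toFinset := ⟨_, rfl⟩
  rw [← hs] at hzero ⊢
  intro t ht
  have hsg : ∀ p : M, ContinuousOn (fun y => sgm (loc (n := n) F p t) y)
      (chartAt (EE n) p).target := by
    intro p
    have h1 := ((hEB n N M F hS.mcf 1 one_pos).2.2.2 p).2.2
    exact cont_slice _ (fun y r => sgm (loc (n := n) F p r) y) h1 t ht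
  -- the lower integral
  have hlow : ∀ g : M → ℝ≥0∞, Measurable g →
      ∫⁻ q, g q ∂muM n F c χ t = Lam (n := n) F c χ t g := by
    intro g hg
    unfold muM Lam
    rw [lintegral_sum_measure]
    congr 1
    funext i
    exact low_term (chartAt (EE n) (c i)) (χ i) (hS.pu.smooth i).continuous
      (fun y => sgm (loc (n := n) F (c i) t) y) (hsg (c i)) g hg
  -- nonnegative continuous functions
  have hLam : ∀ g : M → ℝ, Continuous g → (∀ q, 0 ≤ g q) →
      Lam (n := n) F c χ t (fun q => ENNReal.ofReal (g q)) = ENNReal.ofReal (Ls n F c χ s t g) ∧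
        0 ≤ Ls n F c χ s t g := by
    intro g hg hg0
    apply hLL n N M F c χ hS.pu t s g hg0
    · intro i hi q
      rw [hzero i hi q, zero_mul]
    · intro i _
      exact (hLT n N M F hS.mcf t ht c χ hS.pu i).1 g hg
  have hfinite : muM n F c χ t univ < ⊤ := by
    have h1 := hlow (fun _ => 1) measurable_const
    have h2 := (hLam (fun _ => 1) continuous_const (fun _ => zero_le_one)).1
    rw [lintegral_const, one_mul] at h1
    rw [h1]
    have h3 : (fun _ : M => ENNReal.ofReal 1) = fun _ : M => (1 : ℝ≥0∞) := by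
      funext _; exact ENNReal.ofReal_one
    rw [h3] at h2
    rw [h2]
    exact ENNReal.ofReal_lt_top
  refine ⟨hfinite, hlow, ?_⟩
  haveI : IsFiniteMeasure (muM n F c χ t) := ⟨hfinite⟩
  have hint : ∀ g : M → ℝ, Continuous g → Integrable g (muM n F c χ t) := by
    intro g hg
    obtain ⟨B, hB⟩ := isCompact_univ.exists_bound_of_continuousOn hg.continuousOn
    exact Integrable.of_bound hg.aestronglyMeasurable B
      (Filter.Eventually.of_forall (fun q => hB q (mem_univ q)))
  have hpos : ∀ g : M → ℝ, Continuous g → (∀ q, 0 ≤ g q) →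
      ∫ q, g q ∂muM n F c χ t = Ls n F c χ s t g := by
    intro g hg hg0
    rw [integral_eq_lintegral_of_nonneg_ae (Filter.Eventually.of_forall hg0)
      hg.aestronglyMeasurable, hlow _ (hg.measurable.ennreal_ofReal), (hLam g hg hg0).1,
      ENNReal.toReal_ofReal (hLam g hg hg0).2]
  intro g hg
  refine ⟨hint g hg, ?_⟩
  obtain ⟨B, hB⟩ := isCompact_univ.exists_bound_of_continuousOn hg.continuousOn
  obtain ⟨B', hB'⟩ : ∃ B', B' = |B| := ⟨_, rfl⟩
  have hB0 : 0 ≤ B' := by rw [hB']; exact abs_nonneg B
  have hgB : ∀ q, 0 ≤ g q + B' := by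
    intro q
    have h1 := hB q (mem_univ q)
    rw [Real.norm_eq_abs] at h1
    have h2 := neg_abs_le (g q)
    have h3 := le_abs_self B
    linarith
  have h1 := hpos (fun q => g q + B') (hg.add continuous_const) hgB
  have h2 := hpos (fun _ => B') continuous_const (fun _ => hB0)
  have h3 : ∫ q, (g q + B') ∂muM n F c χ t = ∫ q, g q ∂muM n F c χ t +
      ∫ _q, B' ∂muM n F c χ t := integral_add (hint g hg) (hint _ continuous_const)
  have h4 : Ls n F c χ s t (fun q => g q + B') = Ls n F c χ s t g +
      Ls n F c χ s t (fun _ => B') := by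
    unfold Ls
    rw [← Finset.sum_add_distrib]
    apply Finset.sum_congr rfl
    intro i _
    rw [← integral_add ((hLT n N M F hS.mcf t ht c χ hS.pu i).1 g hg)
      ((hLT n N M F hS.mcf t ht c χ hS.pu i).1 (fun _ => B') continuous_const)]
    congr 1
    funext y
    ring
  linarith

end Pool.Agent.Helper91.CL
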