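import Pool.Agent.Helper26.CL.St

/-! # Project CM, module CCv: averages converge -/

set_option autoImplicit false

open scoped BigOperators ENNReal Topology
open Pool.LE Pool.NL Filter

namespace Pool.CN

theorem hCCv (hRie : StRie) : StCCv := by
  intro d f hf
  obtain ⟨-, hf⟩ := hf
  have hC : CauchySeq (fun n : ℕ => (1 / (n : ℝ) ^ d) * ∑ x ∈ Bn d n, f n x) := by
    rw [Metric.cauchySeq_iff']
    intro ε hε
    obtain ⟨g, hg, n₀, hn₀⟩ := hf (ε / 8) (by positivity)
    obtain ⟨l, hl⟩ := hRie d g hg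
    rw [Metric.tendsto_atTop] at hl
    obtain ⟨n₁, hn₁⟩ := hl (ε / 8) (by positivity)
    have key : ∀ n : ℕ, max (max n₀ n₁) 1 ≤ n →
        |(1 / (n : ℝ) ^ d) * ∑ x ∈ Bn d n, f n x - l| ≤ ε / 4 := by
      intro n hn
      have h0 : n₀ ≤ n := le_trans (le_trans (le_max_left _ _) (le_max_left _ _)) hn
      have h1 : n₁ ≤ n := le_trans (le_trans (le_max_right _ _) (le_max_left _ _)) hn
      have h2 : (1 : ℝ) ≤ n := by exact_mod_cast le_trans (le_max_right _ _) hn
      have hnd : (0 : ℝ) < (n : ℝ) ^ d := by positivity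
      have h3 := hn₁ n h1
      rw [Real.dist_eq] at h3
      have h4 : |(1 / (n : ℝ) ^ d) * ∑ x ∈ Bn d n, f n x -
          (1 / (n : ℝ) ^ d) * ∑ x ∈ Bn d n, g (rs n x)| ≤ ε / 8 := by
        rw [← mul_sub, ← Finset.sum_sub_distrib, abs_mul, abs_of_nonneg (by positivity)]
        calc 1 / (n : ℝ) ^ d * |∑ x ∈ Bn d n, (f n x - g (rs n x))|
            ≤ 1 / (n : ℝ) ^ d * (ε / 8 * (n : ℝ) ^ d) :=
              mul_le_mul_of_nonneg_left
                (le_trans (Finset.abs_sum_le_sum_abs _ _) (hn₀ n h0)) (by positivity)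
          _ = ε / 8 := by field_simp
      calc |(1 / (n : ℝ) ^ d) * ∑ x ∈ Bn d n, f n x - l|
          = |((1 / (n : ℝ) ^ d) * ∑ x ∈ Bn d n, f n x -
              (1 / (n : ℝ) ^ d) * ∑ x ∈ Bn d n, g (rs n x)) +
            ((1 / (n : ℝ) ^ d) * ∑ x ∈ Bn d n, g (rs n x) - l)| := by congr 1; ring
        _ ≤ ε / 8 + ε / 8 := le_trans (abs_add_le _ _) (add_le_add h4 h3.le)
        _ = ε / 4 := by ring
    refine ⟨max (max n₀ n₁) 1, fun n hn => ?_⟩
    have h1 := key n hn
    have h2 := key _ le_rfl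
    rw [Real.dist_eq]
    rw [abs_le] at h1 h2
    rw [abs_lt]
    constructor <;> linarith [h1.1, h1.2, h2.1, h2.2]
  exact cauchySeq_tendsto_of_complete hC

end Pool.CN
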